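import Pool.Agent.RHO.Stmts4
import Pool.Agent.Helper10_RHO3.PVE

/-!
# MP_ca8ef3_an, stage 3, row PV1 (helper56): exact value if the evaluations are onto
-/

set_option autoImplicit false

namespace Pool.Agent.RHO.H56d

open Finset Pool.Agent.RHO.H10c

/-- ROW PV1. -/
theorem pv1 (dua : DUAStmt) : PV1Stmt := by
  intro ι _ _ m k k1 Z hS hZ
  classical
  have hsurj : Function.Surjective (evZ m k Z) := by
    intro b
    have h1 : ∀ j : Fin m, ∃ f : RM ι k, ∀ z : {z // z ∈ Z}, (f : Fn ι) z = b j z := by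
      intro j
      obtain ⟨f, hf, hf'⟩ := hS (fun z => if h : z ∈ Z then b j ⟨z, h⟩ else 0)
      refine ⟨⟨f, hf⟩, fun z => ?_⟩
      show f z = b j z
      rw [hf' z z.2, dif_pos z.2]
    choose q hq using h1
    exact ⟨q, funext fun j => funext fun z => hq j z⟩
  have h2 := card_preimage (evZ m k Z) hsurj (fun b => ∀ z, ∏ j, b j z = 0)
  have h3 : (univ.filter fun q : Fin m → RM ι k => Van (ind Z * wp q) k1) =
      (univ.filter fun q : Fin m → RM ι k => ∀ z, ∏ j, evZ m k Z q j z = 0) := by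
    ext q
    simp only [Finset.mem_filter, Finset.mem_univ, true_and]
    rw [van_iff dua k1 k1 Z le_rfl hZ]
    constructor
    · intro h z
      exact h z z.2
    · intro h z hz
      exact h ⟨z, hz⟩
  rw [card_good] at h2
  unfold pv
  rw [h3]
  have h4 : Fintype.card (Fin m → {z // z ∈ Z} → ZMod 2) = (2 ^ m) ^ Z.card := by
    rw [Fintype.card_fun, Fintype.card_fun, ZMod.card, Fintype.card_coe, Fintype.card_fin,
      ← pow_mul, ← pow_mul, mul_comm]
  rw [h4, Fintype.card_coe] at h2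
  have hG : (Fintype.card (Fin m → RM ι k) : ℝ) ≠ 0 := by
    exact_mod_cast Fintype.card_ne_zero
  have h2m : (2 : ℝ) ^ m ≠ 0 := pow_ne_zero _ two_ne_zero
  rw [div_eq_iff hG]
  have h5 : (((univ.filter fun q : Fin m → RM ι k => ∀ z, ∏ j, evZ m k Z q j z = 0).card : ℕ) : ℝ) *
      (2 ^ m) ^ Z.card = ((2 : ℝ) ^ m - 1) ^ Z.card * (Fintype.card (Fin m → RM ι k) : ℝ) := by
    have h6 : ((2 ^ m - 1 : ℕ) : ℝ) = (2 : ℝ) ^ m - 1 := by
      rw [Nat.cast_sub Nat.one_le_two_pow]
      push_cast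
      ring
    rw [← h6]
    exact_mod_cast h2
  have h7 : (1 - 1 / (2 : ℝ) ^ m) ^ Z.card * (2 ^ m) ^ Z.card = (2 ^ m - 1) ^ Z.card := by
    rw [← mul_pow]
    congr 1
    field_simp
  apply mul_right_cancel₀ (pow_ne_zero Z.card h2m)
  rw [h5, ← h7]
  ring

end Pool.Agent.RHO.H56d
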