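import Pool.Agent.RHO.Stmts4
import Pool.Agent.Helper56_RHO3.RMB

/-!
# MP_ca8ef3_an, stage 3, row SU1 (helper56): values of affine functions
-/

set_option autoImplicit false

namespace Pool.Agent.RHO.H56d

open Finset

/-- ROW SU1. -/
theorem su1 : SU1Stmt := by
  classical
  intro ι _ _ Z hZ g
  let R : Fn ι →ₗ[ZMod 2] (Z → ZMod 2) :=
    LinearMap.funLeft (ZMod 2) (ZMod 2) (fun z : Z => (z : Pt ι))
  have hR : ∀ (f : Fn ι) (z : Z), R f z = f z := fun f z => rfl
  have key : (RM ι 1).map R = ⊤ := by
    by_contra hne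
    obtain ⟨φ, hφ, hle⟩ := Submodule.exists_le_ker_of_lt_top _ (lt_top_iff_ne_top.2 hne)
    let w : Z → ZMod 2 := fun z => φ (Pi.single z 1)
    have hφw : ∀ h : Z → ZMod 2, φ h = ∑ z, w z * h z := by
      intro h
      have h1 : h = ∑ z, h z • (Pi.single z 1 : Z → ZMod 2) := by
        funext x
        rw [Finset.sum_apply, sum_eq_single x]
        · rw [Pi.smul_apply, Pi.single_eq_same, smul_eq_mul, mul_one]
        · intro y _ hy
          rw [Pi.smul_apply, Pi.single_eq_of_ne hy.symm, smul_zero]
        · intro h'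
          exact absurd (mem_univ _) h'
      conv_lhs => rw [h1]
      rw [map_sum]
      apply sum_congr rfl
      intro z _
      rw [map_smul, smul_eq_mul, mul_comm]
    have h0 : ∀ f ∈ RM ι 1, ∑ z : Z, w z * f z = 0 := by
      intro f hf
      have h1 : φ (R f) = 0 := hle (Submodule.mem_map_of_mem hf)
      rw [hφw] at h1
      exact h1
    let J : Finset (Pt ι) :=
      (univ.filter fun z : Z => w z ≠ 0).map (Function.Embedding.subtype _)
    have hsum : ∀ f : Pt ι → ZMod 2, ∑ z : Z, w z * f z = ∑ z ∈ J, f z := by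
      intro f
      rw [sum_map, sum_filter]
      apply sum_congr rfl
      intro z _
      by_cases h : w z ≠ 0
      · rw [if_pos h, H56c.z2 _ h, one_mul]
        rfl
      · rw [if_neg h]
        push Not at h
        rw [h, zero_mul]
    have hJ : J ⊆ Z := by
      intro x hx
      obtain ⟨z, _, rfl⟩ := mem_map.1 hx
      exact z.2
    have hJne : J ≠ ∅ := by
      intro h
      apply hφ
      have h2 : ∀ z, w z = 0 := by
        intro z
        by_contra h3
        have h4 : (z : Pt ι) ∈ J := mem_map.2 ⟨z, mem_filter.2 ⟨mem_univ _, h3⟩, rfl⟩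
        rw [h] at h4
        exact absurd h4 (notMem_empty _)
      apply LinearMap.ext
      intro h5
      rw [hφw]
      simp only [h2, zero_mul, sum_const_zero, LinearMap.zero_apply]
    have hcard : Even J.card := by
      have h1 := h0 _ (H56c.const_mem 1 1)
      rw [hsum (fun _ => 1)] at h1
      rw [sum_const, nsmul_eq_mul, mul_one] at h1
      exact (ZMod.natCast_eq_zero_iff_even).1 h1
    apply hZ J hJ hJne hcard
    funext i
    have h1 := h0 _ (H56c.coord_mem i)
    rw [hsum (fun z => z i)] at h1
    rw [Finset.sum_apply]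
    exact h1
  have hg : (fun z : Z => g z) ∈ (RM ι 1).map R := by
    rw [key]
    exact Submodule.mem_top
  obtain ⟨f, hf, hfg⟩ := hg
  exact ⟨f, hf, fun z hz => congrFun hfg ⟨z, hz⟩⟩

end Pool.Agent.RHO.H56d
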